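import Pool.Agent.Helper17.GQ.Glob
import Pool.Agent.Helper17.GQ.Principal
import Pool.Agent.Helper17.GQ.Small
import Pool.Agent.Helper61.GQ.Four

/-!
# GQ, block Q5: the two cases
-/

set_option autoImplicit false

namespace Pool.Agent.GQ

/-- the identity matrix with one row replaced -/
theorem det_one_row {R : Type*} [CommRing R] {m : ℕ} (a : Fin m) (u : Fin m → R) :
    ((1 : Matrix (Fin m) (Fin m) R).updateRow a u).det = u a := by
  rw [Matrix.det_eq_sum_mul_adjugate_row _ a]
  have h : ∀ c, ((1 : Matrix (Fin m) (Fin m) R).updateRow a u) a c *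
      ((1 : Matrix (Fin m) (Fin m) R).updateRow a u).adjugate c a = u c * (1 : Matrix (Fin m) (Fin m) R) c a := by
    intro c
    rw [Matrix.updateRow_self, Matrix.adjugate_apply, Matrix.updateRow_idem, ← Matrix.adjugate_apply,
      Matrix.adjugate_one]
  rw [Finset.sum_congr rfl fun c _ => h c]
  simp [Matrix.one_apply]

/-- the identity matrix with two rows replaced -/
theorem det_two_rows {R : Type*} [CommRing R] {m : ℕ} (a b : Fin m) (hab : a ≠ b) (u v : Fin m → R) :
    (((1 : Matrix (Fin m) (Fin m) R).updateRow a u).updateRow b v).det = u a * v b - u b * v a := by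
  let A : Matrix (Fin m) (Fin 2) R := Matrix.of fun r s => if r = ![a, b] s then 1 else 0
  let B : Matrix (Fin 2) (Fin m) R := Matrix.of fun s c => ![u, v] s c - if c = ![a, b] s then 1 else 0
  have h1 : ((1 : Matrix (Fin m) (Fin m) R).updateRow a u).updateRow b v = 1 + A * B := by
    ext r c
    rw [Matrix.add_apply, Matrix.mul_apply, Fin.sum_univ_two]
    simp only [A, B, Matrix.of_apply, Matrix.cons_val_zero, Matrix.cons_val_one]
    rcases eq_or_ne r b with rfl | hrb
    · rw [Matrix.updateRow_self]
      simp [Matrix.one_apply, Ne.symm hab, eq_comm]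
    · rw [Matrix.updateRow_ne hrb]
      rcases eq_or_ne r a with rfl | hra
      · rw [Matrix.updateRow_self]
        simp [Matrix.one_apply, hrb, eq_comm]
      · rw [Matrix.updateRow_ne hra]
        simp [hra, hrb]
  rw [h1, Matrix.det_one_add_mul_comm, Matrix.det_fin_two]
  have h2 : ∀ s t, (B * A) s t = B s (![a, b] t) := by
    intro s t
    rw [Matrix.mul_apply]
    simp [A]
  simp only [Matrix.add_apply, h2]
  simp [B, hab, Ne.symm hab]

theorem updateRow_mul' {R : Type*} [CommRing R] {m : ℕ} (X E : Matrix (Fin m) (Fin m) R) (j : Fin m) (u w : Fin m → R)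
    (h : ∀ c, ∑ l, u l * E l c = w c) : X.updateRow j u * E = (X * E).updateRow j w := by
  ext i c
  rw [Matrix.mul_apply]
  rcases eq_or_ne i j with rfl | hij
  · simp only [Matrix.updateRow_self]
    exact h c
  · simp only [Matrix.updateRow_ne hij, Matrix.mul_apply]

/-- entries and minors of `B` -/
theorem entries {k : Type*} [Field k] {m : ℕ} (E E' B : Matrix (Fin m) (Fin m) k) (hE : GP2 E E')
    (hB : B * E = E') (i a : Fin m) : B i a ≠ 0 := by
  have h1 := hE (Function.update (fun l => Sum.inl l) a (Sum.inr i)) (by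
    intro p r hpr
    by_cases hp : p = a
    · by_cases hr : r = a
      · rw [hp, hr]
      · rw [hp, Function.update_self, Function.update_of_ne hr] at hpr
        exact absurd hpr (by simp)
    · by_cases hr : r = a
      · rw [hr, Function.update_self, Function.update_of_ne hp] at hpr
        exact absurd hpr (by simp)
      · rw [Function.update_of_ne hp, Function.update_of_ne hr] at hpr
        exact Sum.inl_injective hpr)
  intro h0
  apply h1
  have h2 : (Matrix.of fun l => Sum.elim E E' ((Function.update (fun l => Sum.inl l) a (Sum.inr i) : Fin m → _) l)) =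
      (1 : Matrix (Fin m) (Fin m) k).updateRow a (B i) * E := by
    rw [updateRow_mul' 1 E a (B i) (E' i) (fun c => by rw [← hB, Matrix.mul_apply]), Matrix.one_mul]
    ext l c
    rw [Matrix.of_apply]
    rcases eq_or_ne l a with rfl | hla
    · rw [Function.update_self, Matrix.updateRow_self, Sum.elim_inr]
    · rw [Function.update_of_ne hla, Matrix.updateRow_ne hla, Sum.elim_inl]
  rw [h2, Matrix.det_mul, det_one_row, h0, zero_mul]

theorem minors_two {k : Type*} [Field k] {m : ℕ} (E E' B : Matrix (Fin m) (Fin m) k) (hE : GP2 E E')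
    (hB : B * E = E') (i j a b : Fin m) (hij : i ≠ j) (hab : a ≠ b) : B i a * B j b ≠ B i b * B j a := by
  have h1 := hE (Function.update (Function.update (fun l => Sum.inl l) a (Sum.inr i)) b (Sum.inr j)) (by
    have ha : ∀ l, l ≠ a → l ≠ b → (Function.update (Function.update (fun l => (Sum.inl l : Fin m ⊕ Fin m)) a
        (Sum.inr i)) b (Sum.inr j)) l = Sum.inl l := fun l h1 h2 => by
      rw [Function.update_of_ne h2, Function.update_of_ne h1]
    have hb : (Function.update (Function.update (fun l => (Sum.inl l : Fin m ⊕ Fin m)) a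
        (Sum.inr i)) b (Sum.inr j)) b = Sum.inr j := Function.update_self _ _ _
    have hc : (Function.update (Function.update (fun l => (Sum.inl l : Fin m ⊕ Fin m)) a
        (Sum.inr i)) b (Sum.inr j)) a = Sum.inr i := by
      rw [Function.update_of_ne hab, Function.update_self]
    intro p r hpr
    by_cases hpb : p = b
    · rw [hpb, hb] at hpr
      by_cases hrb : r = b
      · rw [hpb, hrb]
      · by_cases hra : r = a
        · rw [hra, hc] at hpr
          exact absurd (Sum.inr_injective hpr).symm hij
        · rw [ha r hra hrb] at hpr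
          exact absurd hpr (by simp)
    · by_cases hpa : p = a
      · rw [hpa, hc] at hpr
        by_cases hrb : r = b
        · rw [hrb, hb] at hpr
          exact absurd (Sum.inr_injective hpr) hij
        · by_cases hra : r = a
          · rw [hpa, hra]
          · rw [ha r hra hrb] at hpr
            exact absurd hpr (by simp)
      · rw [ha p hpa hpb] at hpr
        by_cases hrb : r = b
        · rw [hrb, hb] at hpr
          exact absurd hpr (by simp)
        · by_cases hra : r = a
          · rw [hra, hc] at hpr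
            exact absurd hpr (by simp)
          · rw [ha r hra hrb] at hpr
            exact Sum.inl_injective hpr)
  intro h0
  apply h1
  have h2 : (Matrix.of fun l => Sum.elim E E' ((Function.update (Function.update (fun l => Sum.inl l) a (Sum.inr i)) b
      (Sum.inr j) : Fin m → _) l)) =
      ((1 : Matrix (Fin m) (Fin m) k).updateRow a (B i)).updateRow b (B j) * E := by
    rw [updateRow_mul' _ E b (B j) (E' j) (fun c => by rw [← hB, Matrix.mul_apply]),
      updateRow_mul' 1 E a (B i) (E' i) (fun c => by rw [← hB, Matrix.mul_apply]), Matrix.one_mul]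
    ext l c
    rw [Matrix.of_apply]
    rcases eq_or_ne l b with rfl | hlb
    · rw [Function.update_self, Matrix.updateRow_self, Sum.elim_inr]
    · rw [Function.update_of_ne hlb, Matrix.updateRow_ne hlb]
      rcases eq_or_ne l a with rfl | hla
      · rw [Function.update_self, Matrix.updateRow_self, Sum.elim_inr]
      · rw [Function.update_of_ne hla, Matrix.updateRow_ne hla, Sum.elim_inl]
  rw [h2, Matrix.det_mul, det_two_rows a b hab, h0, sub_self, zero_mul]

theorem loewy {k : Type*} [Field k] {m : ℕ} (A A' : Matrix (Fin m) (Fin m) k)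
    (h : ∀ S, dd 1 A' S = dd 1 A S) (h1 : ∀ i j, i ≠ j → A i j ≠ 0)
    (h2 : ∀ i j a b, i ≠ j → a ≠ b → i ≠ a → i ≠ b → j ≠ a → j ≠ b → A i a * A j b ≠ A i b * A j a) :
    ∃ d : Fin m → k, (∀ i, d i ≠ 0) ∧
      ((∀ i j, d i * A' i j = A i j * d j) ∨ ∀ i j, d i * A' i j = A j i * d j) :=
  loewy_glob A A' h1 (minor_one h) (minor_two h) (minor_three h)
    (four A A' h h1 h2 (minor_one h) (minor_two h) (minor_three h))

theorem alternatives {k : Type*} [Field k] {n : ℕ} (E E' : Matrix (Fin (n + 1)) (Fin (n + 1)) k) (hE : GP2 E E')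
    (κ : Fin (n + 1) → k) (hκ : ∀ i, κ i ≠ 0)
    (h : ∀ j S, j ∉ S → dd E E' S * dd E E' (Sᶜ.erase j) = κ j * (dd E E' (insert j S) * dd E E' Sᶜ)) :
    (∃ (M : Matrix (Fin (n + 1)) (Fin (n + 1)) k) (t : k), t ≠ 0 ∧ M * M = t • (1 : Matrix _ _ k) ∧
      (∀ i, ∃ c : k, M.mulVec (E i) = c • E' i) ∧ ∀ i, ∃ c : k, M.mulVec (E' i) = c • E i) ∨
    ∃ a b : Fin (n + 1) → k, (∀ i, a i ≠ 0) ∧ (∀ i, b i ≠ 0) ∧
      ∀ s t, ∑ i, a i * (E i s * E i t) = ∑ i, b i * (E' i s * E' i t) := by
  classical
  have hdE : E.det ≠ 0 := by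
    have := hE.dd_ne ∅
    rwa [dd_empty] at this
  have hdE' : E'.det ≠ 0 := by
    have := hE.dd_ne Finset.univ
    have h2 : dd E E' Finset.univ = E'.det := by
      rw [← Finset.compl_empty, dd_compl, dd_empty]
    rwa [h2] at this
  obtain ⟨B, hBdef⟩ : ∃ B, B = E' * E⁻¹ := ⟨_, rfl⟩
  have hBE : B * E = E' := by
    rw [hBdef, Matrix.mul_assoc, Matrix.nonsing_inv_mul E (isUnit_iff_ne_zero.mpr hdE), Matrix.mul_one]
  have hBd : B.det ≠ 0 := by
    intro h0
    apply hdE'
    rw [← hBE, Matrix.det_mul, h0, zero_mul]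
  have hBi : B⁻¹ * B = 1 := Matrix.nonsing_inv_mul B (isUnit_iff_ne_zero.mpr hBd)
  have hEi : E * E⁻¹ = 1 := Matrix.mul_nonsing_inv E (isUnit_iff_ne_zero.mpr hdE)
  have hEi' : E⁻¹ * E = 1 := Matrix.nonsing_inv_mul E (isUnit_iff_ne_zero.mpr hdE)
  have hBn : ∀ i a, B i a ≠ 0 := entries E E' B hE hBE
  have hpr := principal E E' hE κ h
  rw [← hBdef] at hpr
  have hA : ∀ i j, (Matrix.diagonal κ * B) i j = κ i * B i j := fun i j => by rw [Matrix.diagonal_mul]
  obtain ⟨d, hd, hd'⟩ := loewy (Matrix.diagonal κ * B) B⁻¹ hpr (fun i j _ => by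
    rw [hA]
    exact mul_ne_zero (hκ i) (hBn i j)) (fun i j a b hij hab _ _ _ _ => by
    rw [hA, hA, hA, hA]
    intro h0
    apply minors_two E E' B hE hBE i j a b hij hab
    apply mul_left_cancel₀ (mul_ne_zero (hκ i) (hκ j))
    linear_combination h0)
  rcases hd' with hI | hII
  · left
    have h1 : Matrix.diagonal d = Matrix.diagonal κ * B * Matrix.diagonal d * B := by
      have h2 : Matrix.diagonal d * B⁻¹ = Matrix.diagonal κ * B * Matrix.diagonal d := by
        ext i j
        rw [Matrix.diagonal_mul, Matrix.mul_diagonal]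
        exact hI i j
      rw [← h2, Matrix.mul_assoc, hBi, Matrix.mul_one]
    have h2 : B * Matrix.diagonal d * B = Matrix.diagonal fun i => d i / κ i := by
      ext i j
      have h3 := congrFun (congrFun h1 i) j
      rw [Matrix.mul_assoc, Matrix.mul_assoc, Matrix.diagonal_mul, ← Matrix.mul_assoc] at h3
      rw [← mul_right_inj' (hκ i), ← h3]
      rcases eq_or_ne i j with rfl | hij
      · rw [Matrix.diagonal_apply_eq, Matrix.diagonal_apply_eq, mul_div_cancel₀ _ (hκ i)]
      · rw [Matrix.diagonal_apply_ne _ hij, Matrix.diagonal_apply_ne _ hij, mul_zero]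
    set Nm := Matrix.diagonal d * B with hNm
    set τ : Fin (n + 1) → k := fun i => d i * (d i / κ i) with hτ
    have h3 : Nm * Nm = Matrix.diagonal τ := by
      rw [hNm, Matrix.mul_assoc, ← Matrix.mul_assoc B, h2, Matrix.diagonal_mul_diagonal]
    have h4 : B * Nm = Matrix.diagonal fun i => d i / κ i := by
      rw [hNm, ← Matrix.mul_assoc, h2]
    have h5 : B * Matrix.diagonal τ = Matrix.diagonal τ * B := by
      rw [← h3, ← Matrix.mul_assoc, h4]
      calc (Matrix.diagonal fun i => d i / κ i) * Nm
          = (Matrix.diagonal fun i => d i / κ i) * Matrix.diagonal d * B := by rw [hNm, Matrix.mul_assoc]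
        _ = Matrix.diagonal τ * B := by
            rw [Matrix.diagonal_mul_diagonal]
            congr 2
            funext i
            rw [hτ, mul_comm]
        _ = Nm * Nm * B := by rw [h3]
    have h6 : ∀ i j, τ j = τ i := by
      intro i j
      have h7 := congrFun (congrFun h5 i) j
      rw [Matrix.mul_diagonal, Matrix.diagonal_mul, mul_comm] at h7
      exact mul_right_cancel₀ (hBn i j) h7
    have h7 : Nm * Nm = τ 0 • (1 : Matrix _ _ k) := by
      rw [h3]
      ext i j
      rcases eq_or_ne i j with rfl | hij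
      · simp [h6 0 i]
      · simp [hij]
    refine ⟨(E⁻¹ * Nm * E).transpose, τ 0, ?_, ?_, fun i => ⟨d i, ?_⟩, fun i => ⟨d i / κ i, ?_⟩⟩
    · exact mul_ne_zero (hd 0) (div_ne_zero (hd 0) (hκ 0))
    · rw [← Matrix.transpose_mul]
      have h8 : E⁻¹ * Nm * E * (E⁻¹ * Nm * E) = τ 0 • (1 : Matrix _ _ k) := by
        calc E⁻¹ * Nm * E * (E⁻¹ * Nm * E) = E⁻¹ * (Nm * (E * E⁻¹) * Nm) * E := by
              simp only [Matrix.mul_assoc]
          _ = E⁻¹ * (Nm * Nm) * E := by rw [hEi, Matrix.mul_one]
          _ = τ 0 • (1 : Matrix _ _ k) := by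
              rw [h7, Matrix.mul_smul, Matrix.smul_mul, Matrix.mul_one, hEi']
      rw [h8, Matrix.transpose_smul, Matrix.transpose_one]
    · rw [Matrix.mulVec_transpose]
      have h9 : E * (E⁻¹ * Nm * E) = Matrix.diagonal d * E' := by
        rw [← Matrix.mul_assoc, ← Matrix.mul_assoc, hEi, Matrix.one_mul, hNm, Matrix.mul_assoc, hBE]
      funext c
      have h10 := congrFun (congrFun h9 i) c
      rw [Matrix.diagonal_mul] at h10
      exact h10
    · rw [Matrix.mulVec_transpose]
      have h9 : E' * (E⁻¹ * Nm * E) = Matrix.diagonal (fun i => d i / κ i) * E := by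
        rw [← hBE]
        calc B * E * (E⁻¹ * Nm * E) = B * (E * E⁻¹) * Nm * E := by simp only [Matrix.mul_assoc]
          _ = B * Nm * E := by rw [hEi, Matrix.mul_one]
          _ = _ := by rw [h4]
      funext c
      have h10 := congrFun (congrFun h9 i) c
      rw [Matrix.diagonal_mul] at h10
      exact h10
  · right
    refine ⟨d, fun i => κ i * d i, hd, fun i => mul_ne_zero (hκ i) (hd i), ?_⟩
    have h1 : Matrix.diagonal d = B.transpose * Matrix.diagonal (fun i => κ i * d i) * B := by
      have h2 : Matrix.diagonal d * B⁻¹ = B.transpose * Matrix.diagonal fun i => κ i * d i := by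
        ext i j
        rw [Matrix.diagonal_mul, Matrix.mul_diagonal, Matrix.transpose_apply, hII i j, hA]
        ring
      rw [← h2, Matrix.mul_assoc, hBi, Matrix.mul_one]
    have h2 : E.transpose * Matrix.diagonal d * E = E'.transpose * Matrix.diagonal (fun i => κ i * d i) * E' := by
      rw [h1, ← hBE, Matrix.transpose_mul]
      simp only [Matrix.mul_assoc]
    intro s t
    have h3 := congrFun (congrFun h2 s) t
    rw [Matrix.mul_apply, Matrix.mul_apply] at h3
    simp only [Matrix.mul_diagonal, Matrix.transpose_apply] at h3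
    have h4 : ∑ i, d i * (E i s * E i t) = ∑ i, E i s * d i * E i t :=
      Finset.sum_congr rfl fun i _ => by ring
    have h5 : ∑ i, κ i * d i * (E' i s * E' i t) = ∑ i, E' i s * (κ i * d i) * E' i t :=
      Finset.sum_congr rfl fun i _ => by ring
    rw [h4, h5]
    exact h3

end Pool.Agent.GQ
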