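import Pool.Agent.Helper64.GQ.Defs
import Pool.Agent.Helper77.GS.Bottom

/-!
# GQ, block Q1: classes of proportional units
-/

set_option autoImplicit false

namespace Pool.Agent.GQ

open Pool.Agent.GS MvPolynomial

universe u

variable {F κ : Type u} [Field F] [Field κ] [Algebra F κ] {N n q r : ℕ}

/-- constants -/
theorem cst_mul {z w : κ} (hz : Cst F z) (hw : Cst F w) : Cst F (z * w) := by
  obtain ⟨a, rfl⟩ := hz
  obtain ⟨b, rfl⟩ := hw
  exact ⟨a * b, by rw [map_mul]⟩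

theorem cst_inv {z : κ} (hz : Cst F z) : Cst F z⁻¹ := by
  obtain ⟨a, rfl⟩ := hz
  exact ⟨a⁻¹, by rw [map_inv₀]⟩

theorem cst_zpow {z : κ} (hz : Cst F z) (m : ℤ) : Cst F (z ^ m) := by
  obtain ⟨a, rfl⟩ := hz
  exact ⟨a ^ m, by rw [map_zpow₀]⟩

theorem cst_of_zpow [IsAlgClosed F] (z : κ) (m : ℤ) (hm : m ≠ 0) (h : Cst F (z ^ m)) : Cst F z := by
  rcases lt_or_gt_of_ne hm with h1 | h1
  · obtain ⟨a, ha⟩ := Int.eq_negSucc_of_lt_zero h1
    rw [ha, zpow_negSucc] at h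
    have h2 := cst_inv h
    rw [inv_inv] at h2
    exact cst_of_pow z _ (Nat.succ_pos a) h2
  · obtain ⟨a, ha⟩ := Int.eq_ofNat_of_zero_le h1.le
    rw [ha, zpow_natCast] at h
    exact cst_of_pow z a (by omega) h

/-- the monomials -/
def mn (u : Fin q → κ) (e : Fin q → ℤ) : κ := ∏ i, u i ^ e i

/-- admissible exponents -/
def Adm (u : Fin q → κ) (e : Fin q → ℤ) : Prop := ∑ i, e i = 0 ∧ ∀ i, u i = 0 → e i = 0

theorem mn_add {u : Fin q → κ} {e f : Fin q → ℤ} (he : Adm u e) (hf : Adm u f) :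
    mn u (e + f) = mn u e * mn u f := by
  unfold mn
  rw [← Finset.prod_mul_distrib]
  refine Finset.prod_congr rfl fun i _ => ?_
  rcases eq_or_ne (u i) 0 with h | h
  · rw [Pi.add_apply, he.2 i h, hf.2 i h]
    simp
  · exact zpow_add₀ h _ _

theorem mn_smul (u : Fin q → κ) (a : ℤ) (e : Fin q → ℤ) : mn u (a • e) = mn u e ^ a := by
  unfold mn
  rw [← Finset.prod_zpow]
  refine Finset.prod_congr rfl fun i _ => ?_
  rw [Pi.smul_apply, smul_eq_mul, mul_comm, zpow_mul]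

theorem Adm.add {u : Fin q → κ} {e f : Fin q → ℤ} (he : Adm u e) (hf : Adm u f) : Adm u (e + f) := by
  refine ⟨?_, fun i hi => ?_⟩
  · simp only [Pi.add_apply, Finset.sum_add_distrib, he.1, hf.1, add_zero]
  · rw [Pi.add_apply, he.2 i hi, hf.2 i hi, add_zero]

theorem Adm.smul {u : Fin q → κ} {e : Fin q → ℤ} (he : Adm u e) (a : ℤ) : Adm u (a • e) := by
  refine ⟨?_, fun i hi => ?_⟩
  · simp only [Pi.smul_apply, ← Finset.smul_sum, he.1, smul_zero]
  · rw [Pi.smul_apply, he.2 i hi, smul_zero]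

theorem Adm.zero (u : Fin q → κ) : Adm u (0 : Fin q → ℤ) := ⟨by simp, fun _ _ => rfl⟩

theorem Adm.sum {u : Fin q → κ} {t : ℕ} {e : Fin t → Fin q → ℤ} (he : ∀ b, Adm u (e b)) (a : Fin t → ℤ) :
    Adm u (∑ b, a b • e b) := by
  refine ⟨?_, fun i hi => ?_⟩
  · simp only [Finset.sum_apply, Pi.smul_apply]
    rw [Finset.sum_comm]
    exact Finset.sum_eq_zero fun b _ => by rw [← Finset.smul_sum, (he b).1, smul_zero]
  · rw [Finset.sum_apply]
    exact Finset.sum_eq_zero fun b _ => by rw [Pi.smul_apply, (he b).2 i hi, smul_zero]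

/-- the exponents of a quotient -/
def qt (g h : Fin q) : Fin q → ℤ := Pi.single g 1 - Pi.single h 1

theorem adm_qt {u : Fin q → κ} {g h : Fin q} (hg : u g ≠ 0) (hh : u h ≠ 0) : Adm u (qt g h) := by
  refine ⟨by simp [qt], fun i hi => ?_⟩
  have h1 : i ≠ g := by
    rintro rfl
    exact hg hi
  have h2 : i ≠ h := by
    rintro rfl
    exact hh hi
  simp [qt, h1, h2]

theorem mn_qt {u : Fin q → κ} {g h : Fin q} (hh : u h ≠ 0) : mn u (qt g h) = u g / u h := by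
  rcases eq_or_ne g h with rfl | hne
  · simp [mn, qt, hh]
  · unfold mn qt
    rw [Finset.prod_eq_mul g h hne]
    · simp [hne, Ne.symm hne, div_eq_mul_inv]
    · intro i _ hi
      simp [hi.1, hi.2]
    · intro h
      exact absurd (Finset.mem_univ _) h
    · intro h
      exact absurd (Finset.mem_univ _) h

theorem rk_iff (u : Fin q → κ) (t : ℕ) : Rk F u t ↔ ∀ e : Fin (t + 1) → Fin q → ℤ, (∀ b, Adm u (e b)) →
    ∃ a : Fin (t + 1) → ℤ, a ≠ 0 ∧ Cst F (mn u (∑ b, a b • e b)) := by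
  have h1 : ∀ (e : Fin (t + 1) → Fin q → ℤ) (a : Fin (t + 1) → ℤ),
      mn u (∑ b, a b • e b) = ∏ i, u i ^ ∑ b, a b * e b i := by
    intro e a
    unfold mn
    exact Finset.prod_congr rfl fun i _ => by simp [Finset.sum_apply]
  constructor
  · intro h e he
    obtain ⟨a, ha, hc⟩ := h e (fun b => (he b).1) fun b => (he b).2
    exact ⟨a, ha, by rwa [h1]⟩
  · intro h e he1 he2
    obtain ⟨a, ha, hc⟩ := h e fun b => ⟨he1 b, he2 b⟩
    exact ⟨a, ha, by rwa [h1] at hc⟩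

/-- at least `t` multiplicatively independent elements -/
def Ind (F : Type u) {κ : Type u} [Field F] [Field κ] [Algebra F κ] {q : ℕ} (u : Fin q → κ) (t : ℕ) : Prop :=
  ∃ e : Fin t → Fin q → ℤ, (∀ b, Adm u (e b)) ∧ ∀ a : Fin t → ℤ, Cst F (mn u (∑ b, a b • e b)) → a = 0

section red

variable {P : Pla F κ} {I : Set (MvPolynomial (Fin (N + 1)) F)} {ℓ : Fin q → Fin (N + 1) → F}
  {y : Fin r → Fin (N + 1) → κ} {y' : Fin r → Fin (N + 1) → P.K} {S : κ}

theorem adm_of (h : RedData P I ℓ y y' S) {e : Fin q → ℤ} (he : Adm (uu ℓ y') e) : Adm (uu ℓ y) e := by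
  refine ⟨he.1, fun i hi => he.2 i ?_⟩
  by_contra h0
  exact h.ne_zero i h0 hi

theorem mn_red (h : RedData P I ℓ y y' S) {e : Fin q → ℤ} (he : Adm (uu ℓ y') e) :
    mn (uu ℓ y) e ∈ P.O ∧ P.res (mn (uu ℓ y) e) = mn (uu ℓ y') e ∧ P.O.valuation (mn (uu ℓ y) e) = 1 :=
  h.mono e he.1 he.2

/-- the key computation -/
theorem key (h : RedData P I ℓ y y' S) (j i1 : Fin q) (hj : uu ℓ y j ≠ 0) (hj' : uu ℓ y' j = 0)
    (hi1 : uu ℓ y' i1 ≠ 0) (a : ℤ) {e : Fin q → ℤ} (he : Adm (uu ℓ y') e)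
    (hc : Cst F (mn (uu ℓ y) (a • qt j i1 + e))) : a = 0 ∧ Cst F (mn (uu ℓ y') e) := by
  have hi10 := h.ne_zero i1 hi1
  have hae := adm_of h he
  have hq := adm_qt (u := uu ℓ y) hj hi10
  obtain ⟨c, hc⟩ := hc
  rw [mn_add (hq.smul a) hae, mn_smul, mn_qt hi10] at hc
  have hm := mn_red h he
  have hd0 : uu ℓ y j / uu ℓ y i1 ≠ 0 := div_ne_zero hj hi10
  have hm0 : mn (uu ℓ y) e ≠ 0 := by
    intro h0
    rw [h0, map_zero] at hm
    exact zero_ne_one hm.2.2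
  have hc0 : c ≠ 0 := by
    rintro rfl
    rw [map_zero] at hc
    exact mul_ne_zero (zpow_ne_zero _ hd0) hm0 hc
  have hlt : P.O.valuation (uu ℓ y j / uu ℓ y i1) < 1 := by
    rw [map_div₀, div_lt_one₀ (zero_lt_iff.mpr ((Valuation.ne_zero_iff _).mpr hi10)), h.val_eq i1 hi1]
    exact h.val_lt j hj'
  have ha0 : a = 0 := by
    by_contra hne
    have h1 := congrArg P.O.valuation hc
    rw [map_mul, hm.2.2, mul_one, val_cst P c hc0, map_zpow₀] at h1
    rcases lt_or_gt_of_ne hne with h | h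
    · obtain ⟨m, hm⟩ := Int.eq_negSucc_of_lt_zero h
      rw [hm, zpow_negSucc, inv_eq_one] at h1
      exact (pow_lt_one₀ zero_le hlt (Nat.succ_ne_zero m)).ne h1
    · obtain ⟨m, hm⟩ := Int.eq_ofNat_of_zero_le h.le
      rw [hm, zpow_natCast] at h1
      refine (pow_lt_one₀ zero_le hlt ?_).ne h1
      rintro rfl
      rw [hm] at h
      exact lt_irrefl _ h
  refine ⟨ha0, c, ?_⟩
  rw [ha0, zpow_zero, one_mul] at hc
  rw [← hm.2.1, hc, P.res_cst]

/-- survivors and proportionality -/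
theorem down (h : RedData P I ℓ y y' S) (g i : Fin q) (hg : uu ℓ y' g ≠ 0) (hi : uu ℓ y i ≠ 0)
    (hc : Cst F (uu ℓ y i / uu ℓ y g)) : uu ℓ y' i ≠ 0 ∧ Cst F (uu ℓ y' i / uu ℓ y' g) := by
  have hg0 := h.ne_zero g hg
  have hv : P.O.valuation (uu ℓ y i) = P.O.valuation S := by
    obtain ⟨c, hc⟩ := hc
    have hc0 : c ≠ 0 := by
      rintro rfl
      rw [map_zero] at hc
      exact div_ne_zero hi hg0 hc
    have h1 := congrArg P.O.valuation hc
    rw [val_cst P c hc0, map_div₀, div_eq_one_iff_eq ((Valuation.ne_zero_iff _).mpr hg0), h.val_eq g hg] at h1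
    exact h1
  have hi' : uu ℓ y' i ≠ 0 := fun h0 => (h.val_lt i h0).ne hv
  refine ⟨hi', ?_⟩
  have h2 := mn_red h (adm_qt hi' hg)
  rw [mn_qt hg0, mn_qt hg] at h2
  obtain ⟨c, hc⟩ := hc
  exact ⟨c, by rw [← h2.2.1, hc, P.res_cst]⟩

end red

/-- the rank is at least the dimension -/
theorem lower {F κ : Type u} [Field F] [Field κ] [Algebra F κ] (I : Set (MvPolynomial (Fin (N + 1)) F))
    (hI : Homog I) (ℓ : Fin q → Fin (N + 1) → F) (hGP : GP F I ℓ n) (hq : r * n + 1 ≤ q) (s0 : Fin r) (d : ℕ)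
    (A : Finset (Fin q)) (y : Fin r → Fin (N + 1) → κ) (h : St I ℓ n s0 A y) (hA : A.card + d = n) :
    Ind F (uu ℓ y) d := by
  classical
  induction d generalizing κ A y with
  | zero => exact ⟨fun b => b.elim0, fun b => b.elim0, fun a _ => funext fun b => b.elim0⟩
  | succ d ih =>
    obtain ⟨j, hj⟩ := exists_nonzero I ℓ hGP hq y h.ne h.onX
    obtain ⟨P, y', S, hR, hjA, hst⟩ := step I hI ℓ hGP hq s0 A y h (by omega) j hj
    have hj' : uu ℓ y' j = 0 := uu_eq_zero ℓ y' j s0 (hst.onA j (Finset.mem_insert_self j A))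
    obtain ⟨i1, hi1⟩ := exists_nonzero I ℓ hGP hq y' hR.ne hR.onX
    obtain ⟨e, he, hi⟩ := ih (κ := P.K) (insert j A) y' hst (by
      rw [Finset.card_insert_of_notMem hjA]
      omega)
    refine ⟨Fin.cons (qt j i1) e, fun b => ?_, fun a ha => ?_⟩
    · refine Fin.cases ?_ (fun b => ?_) b
      · rw [Fin.cons_zero]
        exact adm_qt hj (hR.ne_zero i1 hi1)
      · rw [Fin.cons_succ]
        exact adm_of hR (he b)
    · rw [Fin.sum_univ_succ] at ha
      simp only [Fin.cons_zero, Fin.cons_succ] at ha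
      obtain ⟨h0, h1⟩ := key hR j i1 hj hj' hi1 _ (Adm.sum he fun b => a b.succ) ha
      have h2 := hi _ h1
      funext b
      refine Fin.cases h0 (fun b => ?_) b
      exact congrFun h2 b

/-- a product with constant residue is constant -/
theorem lift {F κ : Type u} [Field F] [IsAlgClosed F] [Field κ] [Algebra F κ]
    (I : Set (MvPolynomial (Fin (N + 1)) F)) (hI : Homog I) (ℓ : Fin q → Fin (N + 1) → F) (hGP : GP F I ℓ n)
    (hq : r * n + 1 ≤ q) (s0 : Fin r) (A : Finset (Fin q)) (y : Fin r → Fin (N + 1) → κ)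
    (h : St I ℓ n s0 A y) (hA : A.card < n) (j : Fin q) (hj : uu ℓ y j ≠ 0) (hjA : j ∉ A)
    (P : Pla F κ) (y' : Fin r → Fin (N + 1) → P.K) (S : κ) (hR : RedData P I ℓ y y' S)
    (hst : St I ℓ n s0 (insert j A) y') (m : Fin q → ℤ) (hm : Adm (uu ℓ y') m)
    (hc : Cst F (mn (uu ℓ y') m)) : Cst F (mn (uu ℓ y) m) := by
  classical
  have hj' : uu ℓ y' j = 0 := uu_eq_zero ℓ y' j s0 (hst.onA j (Finset.mem_insert_self j A))
  obtain ⟨i1, hi1⟩ := exists_nonzero I ℓ hGP hq y' hR.ne hR.onX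
  obtain ⟨t, ht⟩ : ∃ t, n - A.card = t + 1 := ⟨n - A.card - 1, by omega⟩
  obtain ⟨e, he, hi⟩ := lower I hI ℓ hGP hq s0 t (insert j A) y' hst (by
    rw [Finset.card_insert_of_notMem hjA]
    omega)
  have hr := h.rank
  rw [ht, rk_iff] at hr
  obtain ⟨a, ha, hac⟩ := hr (Fin.cons (qt j i1) (Fin.cons m e)) (by
    intro b
    refine Fin.cases ?_ (fun b => ?_) b
    · rw [Fin.cons_zero]
      exact adm_qt hj (hR.ne_zero i1 hi1)
    · rw [Fin.cons_succ]
      refine Fin.cases ?_ (fun b => ?_) b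
      · rw [Fin.cons_zero]
        exact adm_of hR hm
      · rw [Fin.cons_succ]
        exact adm_of hR (he b))
  rw [Fin.sum_univ_succ, Fin.sum_univ_succ] at hac
  simp only [Fin.cons_zero, Fin.cons_succ] at hac
  have hE := Adm.sum he fun b => a b.succ.succ
  obtain ⟨h0, h1⟩ := key hR j i1 hj hj' hi1 _ ((hm.smul (a (Fin.succ 0))).add hE) hac
  rw [mn_add (hm.smul _) hE, mn_smul] at h1
  have hm0 : mn (uu ℓ y') m ≠ 0 := by
    have := mn_red hR hm
    intro h0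
    rw [h0] at this
    exact ((P.res_ne_zero this.1).mpr this.2.2) this.2.1
  have h2 : Cst F (mn (uu ℓ y') (∑ b : Fin t, a b.succ.succ • e b)) := by
    have h3 := cst_mul (cst_inv (cst_zpow hc (a (Fin.succ 0)))) h1
    rwa [inv_mul_cancel_left₀ (zpow_ne_zero _ hm0)] at h3
  have h4 := hi _ h2
  have h5 : a (Fin.succ 0) ≠ 0 := by
    intro h6
    apply ha
    funext b
    refine Fin.cases h0 (fun b => ?_) b
    refine Fin.cases h6 (fun b => ?_) b
    exact congrFun h4 b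
  apply cst_of_zpow _ _ h5
  rw [← mn_smul]
  have h6 : ∑ b : Fin t, a b.succ.succ • e b = 0 := Finset.sum_eq_zero fun b _ => by
    rw [show a b.succ.succ = 0 from congrFun h4 b, zero_smul]
  rw [h6, h0, zero_smul, zero_add, add_zero] at hac
  exact hac

/-- the property of the classes -/
def Cls (F : Type u) {κ : Type u} [Field F] [Field κ] [Algebra F κ] {q : ℕ} (u : Fin q → κ) (c : ℕ)
    (C : Finset (Fin q)) : Prop :=
  q ≤ C.card + c ∧ (∀ g ∈ C, u g ≠ 0) ∧ ∀ g ∈ C, ∀ h, u h ≠ 0 → (h ∈ C ↔ Cst F (u h / u g))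

theorem cls_of_red {F κ : Type u} [Field F] [IsAlgClosed F] [Field κ] [Algebra F κ]
    (I : Set (MvPolynomial (Fin (N + 1)) F)) (hI : Homog I) (ℓ : Fin q → Fin (N + 1) → F) (hGP : GP F I ℓ n)
    (hq : r * n + 1 ≤ q) (s0 : Fin r) (A : Finset (Fin q)) (y : Fin r → Fin (N + 1) → κ)
    (h : St I ℓ n s0 A y) (hA : A.card < n) (j : Fin q) (hj : uu ℓ y j ≠ 0) (hjA : j ∉ A)
    (P : Pla F κ) (y' : Fin r → Fin (N + 1) → P.K) (S : κ) (hR : RedData P I ℓ y y' S)
    (hst : St I ℓ n s0 (insert j A) y') (c : ℕ) (C : Finset (Fin q)) (hC : Cls F (uu ℓ y') c C) :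
    Cls F (uu ℓ y) c C := by
  refine ⟨hC.1, fun g hg => hR.ne_zero g (hC.2.1 g hg), fun g hg i hi => ⟨fun hiC => ?_, fun hc => ?_⟩⟩
  · have hg' := hC.2.1 g hg
    have hi' := hC.2.1 i hiC
    have h1 := (hC.2.2 g hg i hi').mp hiC
    rw [← mn_qt hg'] at h1
    have h2 := lift I hI ℓ hGP hq s0 A y h hA j hj hjA P y' S hR hst _ (adm_qt hi' hg') h1
    rwa [mn_qt (hR.ne_zero g hg')] at h2
  · obtain ⟨h1, h2⟩ := down hR g i (hC.2.1 g hg) hi hc
    exact (hC.2.2 g hg i h1).mpr h2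

theorem classes_aux {F κ : Type u} [Field F] [IsAlgClosed F] [Field κ] [Algebra F κ]
    (I : Set (MvPolynomial (Fin (N + 1)) F)) (hI : Homog I) (ℓ : Fin q → Fin (N + 1) → F) (hGP : GP F I ℓ n)
    (hq : r * n + 1 ≤ q) (s0 : Fin r) (d : ℕ) (A : Finset (Fin q)) (y : Fin r → Fin (N + 1) → κ)
    (h : St I ℓ n s0 A y) (hA : A.card + d = n) :
    ∃ 𝒞 : Finset (Finset (Fin q)), 𝒞.card = d + 1 ∧ ∀ C ∈ 𝒞, Cls F (uu ℓ y) (r * n) C := by
  classical
  induction d generalizing κ A y with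
  | zero =>
    let C : Finset (Fin q) := Finset.univ.filter fun i => uu ℓ y i ≠ 0
    refine ⟨{C}, Finset.card_singleton C, ?_⟩
    intro C' hC'
    rw [Finset.mem_singleton] at hC'
    subst hC'
    refine ⟨?_, fun g hg => (Finset.mem_filter.mp hg).2, fun g hg i hi => ?_⟩
    · have h1 := card_zero I ℓ hGP y h.ne h.onX Cᶜ fun g hg => by
        by_contra h0
        exact (Finset.mem_compl.mp hg) (Finset.mem_filter.mpr ⟨Finset.mem_univ _, h0⟩)
      rw [Finset.card_compl, Fintype.card_fin] at h1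
      omega
    · refine ⟨fun _ => ?_, fun _ => Finset.mem_filter.mpr ⟨Finset.mem_univ _, hi⟩⟩
      have hg0 := (Finset.mem_filter.mp hg).2
      have hr := h.rank
      have h0 : n - A.card = 0 := by omega
      rw [h0, rk_iff] at hr
      obtain ⟨a, ha, hac⟩ := hr (fun _ => qt i g) fun _ => adm_qt hi hg0
      rw [Fin.sum_univ_one, mn_smul, mn_qt hg0] at hac
      refine cst_of_zpow _ _ (fun h => ha ?_) hac
      funext b
      rw [Fin.fin_one_eq_zero b]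
      exact h
  | succ d ih =>
    have hstep : ∀ j, uu ℓ y j ≠ 0 → ∃ 𝒞 : Finset (Finset (Fin q)), 𝒞.card = d + 1 ∧
        ∀ C ∈ 𝒞, Cls F (uu ℓ y) (r * n) C ∧ j ∉ C := by
      intro j hj
      obtain ⟨P, y', S, hR, hjA, hst⟩ := step I hI ℓ hGP hq s0 A y h (by omega) j hj
      have hj' : uu ℓ y' j = 0 := uu_eq_zero ℓ y' j s0 (hst.onA j (Finset.mem_insert_self j A))
      obtain ⟨𝒞, h1, h2⟩ := ih (κ := P.K) (insert j A) y' hst (by
        rw [Finset.card_insert_of_notMem hjA]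
        omega)
      exact ⟨𝒞, h1, fun C hC => ⟨cls_of_red I hI ℓ hGP hq s0 A y h (by omega) j hj hjA P y' S hR hst _ C (h2 C hC),
        fun hjC => (h2 C hC).2.1 j hjC hj'⟩⟩
    obtain ⟨j, hj⟩ := exists_nonzero I ℓ hGP hq y h.ne h.onX
    obtain ⟨𝒞₁, h1, h2⟩ := hstep j hj
    obtain ⟨C₁, hC₁⟩ : 𝒞₁.Nonempty := by
      rw [← Finset.card_pos]
      omega
    obtain ⟨j₂, hj₂⟩ : C₁.Nonempty := by
      rw [← Finset.card_pos]
      have := (h2 C₁ hC₁).1.1
      omega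
    obtain ⟨𝒞₂, h3, h4⟩ := hstep j₂ ((h2 C₁ hC₁).1.2.1 j₂ hj₂)
    have hn : C₁ ∉ 𝒞₂ := fun h => (h4 C₁ h).2 hj₂
    refine ⟨insert C₁ 𝒞₂, by rw [Finset.card_insert_of_notMem hn, h3], ?_⟩
    intro C hC
    rcases Finset.mem_insert.mp hC with rfl | hC
    · exact (h2 _ hC₁).1
    · exact (h4 C hC).1

theorem classes {F κ : Type u} [Field F] [IsAlgClosed F] [Field κ] [Algebra F κ] {N n q r : ℕ}
    (I : Set (MvPolynomial (Fin (N + 1)) F)) (hI : Homog I) (ℓ : Fin q → Fin (N + 1) → F) (hGP : GP F I ℓ n)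
    (hq : r * n + 1 ≤ q) (s0 : Fin r) (A : Finset (Fin q)) (y : Fin r → Fin (N + 1) → κ)
    (h : St I ℓ n s0 A y) (hA : A.card ≤ n) :
    ∃ 𝒞 : Finset (Finset (Fin q)), 𝒞.card = n - A.card + 1 ∧ ∀ C ∈ 𝒞, q ≤ C.card + r * n ∧
      (∀ g ∈ C, uu ℓ y g ≠ 0) ∧
      ∀ g ∈ C, ∀ h, uu ℓ y h ≠ 0 → (h ∈ C ↔ Cst F (uu ℓ y h / uu ℓ y g)) :=
  classes_aux I hI ℓ hGP hq s0 (n - A.card) A y h (by omega)

/-- `2 n + 2` hyperplanes (and not more), in pairs -/
theorem pairs {F Ω : Type u} [Field F] [IsAlgClosed F] [Field Ω] [Algebra F Ω] {N n q : ℕ} (hn : 1 ≤ n)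
    (I : Set (MvPolynomial (Fin (N + 1)) F)) (hI : Homog I) (ℓ : Fin q → Fin (N + 1) → F) (hGP : GP F I ℓ n)
    (hq : 2 * n + 2 ≤ q) (s0 : Fin 2) (y : Fin 2 → Fin (N + 1) → Ω) (hX : ∀ σ, OnX I (y σ))
    (hu : ∀ i, uu ℓ y i ≠ 0) (hgen : (n : ℕ∞) ≤ rk F (Rat (y s0))) (hrank : Rk F (uu ℓ y) n) :
    ∃ e : Fin (n + 1) ⊕ Fin (n + 1) ≃ Fin q, ∀ i,
      Cst F (uu ℓ y (e (Sum.inl i)) / uu ℓ y (e (Sum.inr i))) := by
  classical
  have hne : ∀ σ, y σ ≠ 0 := by
    intro σ h0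
    have hq0 : 0 < q := by omega
    apply hu ⟨0, hq0⟩
    apply uu_eq_zero ℓ y _ σ
    rw [h0]
    simp [lin]
  have hst0 : St I ℓ n s0 ∅ y := ⟨hne, hX, by simp, by simpa using hgen, by simpa using hrank⟩
  obtain ⟨𝒞, hcard, h𝒞⟩ := classes I hI ℓ hGP (by omega) s0 ∅ y hst0 (by simp)
  rw [Finset.card_empty, Nat.sub_zero] at hcard
  -- disjoint
  have hdis : ∀ C ∈ 𝒞, ∀ C' ∈ 𝒞, ∀ g ∈ C, g ∈ C' → C = C' := by
    intro C hC C' hC' g hg hg'
    ext h
    rw [(h𝒞 C hC).2.2 g hg h (hu h), (h𝒞 C' hC').2.2 g hg' h (hu h)]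
  have hsum : ∑ C ∈ 𝒞, C.card ≤ q := by
    rw [← Finset.card_biUnion]
    · exact (Finset.card_le_univ _).trans (by rw [Fintype.card_fin])
    · intro C hC C' hC' hne
      rw [Function.onFun, Finset.disjoint_left]
      intro g hg hg'
      exact hne (hdis C hC C' hC' g hg hg')
  have hlow : (n + 1) * (q - 2 * n) ≤ ∑ C ∈ 𝒞, C.card := by
    rw [← hcard, ← smul_eq_mul, ← Finset.sum_const]
    exact Finset.sum_le_sum fun C hC => by
      have := (h𝒞 C hC).1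
      omega
  have hq2 : q = 2 * n + 2 := by
    have h1 := hlow.trans hsum
    obtain ⟨t, ht⟩ : ∃ t, q = 2 * n + 2 + t := ⟨q - (2 * n + 2), by omega⟩
    have h2 : q - 2 * n = 2 + t := by omega
    rw [h2] at h1
    have h3 : n * t = 0 := by nlinarith
    rcases Nat.mul_eq_zero.mp h3 with h4 | h4
    · omega
    · omega
  have φ : Fin (n + 1) ≃ 𝒞 := (Finset.equivFinOfCardEq hcard).symm
  have hab : ∀ i : Fin (n + 1), ∃ a b : Fin q, a ∈ (φ i : Finset (Fin q)) ∧ b ∈ (φ i : Finset (Fin q)) ∧ a ≠ b := by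
    intro i
    have h1 := (h𝒞 (φ i) (φ i).2).1
    have h2 : 1 < (φ i : Finset (Fin q)).card := by omega
    obtain ⟨a, ha, b, hb, hab⟩ := Finset.one_lt_card.mp h2
    exact ⟨a, b, ha, hb, hab⟩
  choose a b ha hb hab using hab
  let f : Fin (n + 1) ⊕ Fin (n + 1) → Fin q := Sum.elim a b
  have hfm : ∀ i : Fin (n + 1), ∀ x, x = a i ∨ x = b i → x ∈ (φ i : Finset (Fin q)) := by
    rintro i x (rfl | rfl)
    · exact ha i
    · exact hb i
  have hφ : ∀ i j x, x ∈ (φ i : Finset (Fin q)) → x ∈ (φ j : Finset (Fin q)) → i = j := by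
    intro i j x hi hj
    exact φ.injective (Subtype.ext (hdis _ (φ i).2 _ (φ j).2 x hi hj))
  have hf : Function.Injective f := by
    rintro (i | i) (j | j) h
    · change a i = a j at h
      rw [hφ i j (a i) (ha i) (h ▸ ha j)]
    · change a i = b j at h
      have h1 := hφ i j (a i) (ha i) (h ▸ hb j)
      subst h1
      exact absurd h (hab i)
    · change b i = a j at h
      have h1 := hφ i j (b i) (hb i) (h ▸ ha j)
      subst h1
      exact absurd h.symm (hab i)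
    · change b i = b j at h
      rw [hφ i j (b i) (hb i) (h ▸ hb j)]
  have hbij : Function.Bijective f := by
    rw [Fintype.bijective_iff_injective_and_card]
    refine ⟨hf, ?_⟩
    simp [hq2]
    omega
  refine ⟨Equiv.ofBijective f hbij, fun i => ?_⟩
  exact ((h𝒞 (φ i) (φ i).2).2.2 (b i) (hb i) (a i) (hu _)).mp (ha i)

end Pool.Agent.GQ
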