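import Mathlib

/-!
# GQ (points of degree two on the complement of `2 n + 2` hyperplanes of `P^n`): definitions
-/

set_option autoImplicit false

namespace Pool.Agent.GQ

/-- row `i` of `Y` for `i` in `S`, of `X` otherwise -/
def mix {R : Type*} {m : ℕ} (X Y : Matrix (Fin m) (Fin m) R) (S : Finset (Fin m)) : Matrix (Fin m) (Fin m) R :=
  Matrix.of fun i => if i ∈ S then Y i else X i

/-- determinants of the rows -/
def dd {R : Type*} [CommRing R] {m : ℕ} (X Y : Matrix (Fin m) (Fin m) R) (S : Finset (Fin m)) : R :=
  (mix X Y S).det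

/-- the `2 m` rows of `E` and `E'` are in general position: any `m` of them are linearly independent -/
def GP2 {k : Type*} [Field k] {m : ℕ} (E E' : Matrix (Fin m) (Fin m) k) : Prop :=
  ∀ f : Fin m → Fin m ⊕ Fin m, Function.Injective f → (Matrix.of fun i => Sum.elim E E' (f i)).det ≠ 0

end Pool.Agent.GQ
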