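import Pool.Agent.Helper16.GS.Main

/-!
# GQ, block Q6a: from points to germs

The first part of the proof of `Pool.Agent.GS.main_deg` (helper16), with the contradiction as a hypothesis.
-/

set_option autoImplicit false

namespace Pool.Agent.GQ

open NumberField IntermediateField Pool.Agent.Helper64.Vojta Pool.Agent.VZ Filter MvPolynomial Pool.Agent.GS

universe u

/-- one degree -/
theorem main_deg_of {k : Type u} [Field k] [NumberField k] {N n q : ℕ} (r : ℕ) (hq : 0 < q)
    (P : Ideal (MvPolynomial (Fin N) k)) [P.IsPrime] (hP : Algebra.trdeg k (MvPolynomial (Fin N) k ⧸ P) = n)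
    (ℓ : Fin q → Fin (N + 1) → k)
    (hno : ∀ (F Ω : Type u) [Field F] [IsAlgClosed F] [Field Ω] [Algebra k F] [Algebra F Ω] [Algebra k Ω]
      [IsScalarTower k F Ω] (s0 : Fin r) (y : Fin r → Fin (N + 1) → Ω), (∀ σ, OnX (cone P) (y σ)) →
      (∀ i, uu (fun i j => algebraMap k F (ℓ i j)) y i ≠ 0) → (n : ℕ∞) ≤ rk F (Rat (y s0)) →
      ¬ Rk F (uu (fun i j => algebraMap k F (ℓ i j)) y) n)
    (S : Finset (Pl k)) (C : ℝ) :
    ∃ Q : MvPolynomial (Fin N) k, Q ∉ P ∧ ∀ y : Fin N → AlgebraicClosure k, (∀ f ∈ P, aeval y f = 0) →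
      dg y = r → (∀ i, ∑ j, algebraMap k (fld y) (ℓ i j) * crd y j ≠ 0) → q * hgt y - C ≤ lam ℓ S y →
      aeval y Q = 0 := by
  classical
  by_contra hcon
  push Not at hcon
  have hcount : Countable (MvPolynomial (Fin N) k) := Pool.Agent.Helper16.UP.KF.countable_mv k N
  obtain ⟨Q, hQ0, hQd⟩ := exists_seqP P
  choose y hyP hyr hyD hyN hyQ using fun n => hcon (Q n) (hQ0 n)
  let i0 : Fin q := ⟨0, by omega⟩
  obtain ⟨T, hT⟩ := Pool.Agent.Helper64.GH.units S r ℓ C i0
  choose x s c hc hxs hx0 hxu hxf using fun n => hT (y n) (hyr n) (hyD n) (hyN n)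
  set U : Ultrafilter ℕ := Filter.hyperfilter ℕ with hU
  obtain ⟨s0, hs0⟩ := Pool.Agent.Helper26.DMC.SU1.ult_finite U (Set.univ : Set (Fin r))
    Set.finite_univ s (Eventually.of_forall fun _ => Set.mem_univ _)
  obtain ⟨D, hD1, hD2⟩ := Pool.Agent.SL.germs (k := k) U
  let X : Fin r → Fin (N + 1) → Pool.Agent.SL.Om k U := fun σ j => Pool.Agent.SL.gm U fun n => x n σ j
  have hlin : ∀ (m : Fin (N + 1) → k) (z : ℕ → Fin (N + 1) → AlgebraicClosure k),
      lin (K := Pool.Agent.SL.Om k U) m (fun i => Pool.Agent.SL.gm U fun n => z n i) =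
        Pool.Agent.SL.gm U fun n => ∑ j, algebraMap k (AlgebraicClosure k) (m j) * z n j := by
    intro m z
    unfold lin
    have h : (fun n => ∑ j, algebraMap k (AlgebraicClosure k) (m j) * z n j) =
        ∑ j, (fun _ : ℕ => algebraMap k (AlgebraicClosure k) (m j)) * fun n => z n j := by
      funext n
      rw [Finset.sum_apply]
      rfl
    rw [h, map_sum]
    exact Finset.sum_congr rfl fun j _ => by rw [map_mul]; rfl
  have huu : ∀ i, uu ℓ X i = Pool.Agent.SL.gm U fun n => ∏ σ, ∑ j, algebraMap k (AlgebraicClosure k) (ℓ i j) * x n σ j := by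
    intro i
    unfold uu
    have h : (fun n => ∏ σ, ∑ j, algebraMap k (AlgebraicClosure k) (ℓ i j) * x n σ j) =
        ∏ σ, fun n => ∑ j, algebraMap k (AlgebraicClosure k) (ℓ i j) * x n σ j := by
      funext n
      rw [Finset.prod_apply]
    rw [h, map_prod]
    exact Finset.prod_congr rfl fun σ _ => hlin (ℓ i) fun n => x n σ
  have huU : ∀ i, D.U (uu ℓ X i) := by
    intro i
    rw [huu]
    exact hD2 T _ (Filter.Eventually.of_forall fun n => hxu n i)
  have hX : ∀ σ, OnX (cone P) (X σ) := by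
    rintro σ f ⟨⟨d, hd⟩, hf⟩
    show aeval (fun j => Pool.Agent.SL.gm U fun n => x n σ j) f = 0
    rw [Pool.Agent.SL.aeval_gm, Pool.Agent.SL.gm_zero]
    refine Filter.Eventually.of_forall fun n => hxf n σ d f hd ?_
    have h1 := hyP n _ hf
    rw [← h1]
    have h2 : (aeval (y n)).comp (aeval (Fin.cons 1 MvPolynomial.X : Fin (N + 1) → MvPolynomial (Fin N) k)) =
        aeval (Fin.cons 1 (y n) : Fin (N + 1) → AlgebraicClosure k) := by
      apply MvPolynomial.algHom_ext
      intro j
      refine Fin.cases ?_ (fun j => ?_) j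
      · simp
      · simp
    rw [← h2]
    rfl
  have hgen : (n : ℕ∞) ≤ rk k (Rat (X s0)) := by
    have h1 := generic_point P hP (K := Pool.Agent.SL.Om k U) (fun j => Pool.Agent.SL.gm U fun n => y n j) (by
      intro f hf
      by_contra hfP
      rw [Pool.Agent.SL.aeval_gm, Pool.Agent.SL.gm_zero] at hf
      obtain ⟨M, hM⟩ := hQd f hfP
      have h2 : ∀ᶠ n in (U : Filter ℕ), M ≤ n := by
        have h3 : ∀ᶠ n in Filter.cofinite, M ≤ n := by
          rw [Nat.cofinite_eq_atTop]
          exact Filter.eventually_ge_atTop M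
        exact h3.filter_mono (Filter.hyperfilter_le_cofinite)
      obtain ⟨m, h3, h4⟩ := (hf.and h2).exists
      obtain ⟨R, hR⟩ := hM m h4
      apply hyQ m
      rw [hR, map_mul, h3, zero_mul])
    have hc0 : Pool.Agent.SL.gm U c ≠ 0 := by
      intro h
      rw [Pool.Agent.SL.gm_zero] at h
      obtain ⟨m, hm⟩ := h.exists
      exact hc m hm
    have h2 : X s0 = fun j => Pool.Agent.SL.gm U c * (Fin.cons 1 (fun j => Pool.Agent.SL.gm U fun n => y n j) :
        Fin (N + 1) → Pool.Agent.SL.Om k U) j := by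
      funext j
      have h3 : X s0 j = Pool.Agent.SL.gm U fun n => c n * (Fin.cons 1 (y n) : Fin (N + 1) → AlgebraicClosure k) j := by
        show Pool.Agent.SL.gm U (fun n => x n s0 j) = _
        rw [Pool.Agent.SL.gm_eq]
        filter_upwards [hs0] with m hm
        rw [← hm]
        exact hxs m j
      rw [h3]
      have h4 : (fun n => c n * (Fin.cons 1 (y n) : Fin (N + 1) → AlgebraicClosure k) j) =
          c * fun n => (Fin.cons 1 (y n) : Fin (N + 1) → AlgebraicClosure k) j := rfl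
      rw [h4, map_mul]
      congr 1
      refine Fin.cases ?_ (fun j => ?_) j
      · exact map_one (Pool.Agent.SL.gm U)
      · rfl
    rw [h2, Rat_mul _ _ hc0]
    exact h1
  obtain ⟨F, Ω, _, _, _, _, _, _, hT1, hT2, hF, hgen', hrank⟩ := init D ℓ s0 X
    (fun i j => (huU i).div (huU j)) hgen
  have hu' : (uu (fun i j => algebraMap k F (ℓ i j)) fun σ j => algebraMap (Pool.Agent.SL.Om k U) Ω (X σ j)) =
      fun i => algebraMap (Pool.Agent.SL.Om k U) Ω (uu ℓ X i) := by
    funext i
    unfold uu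
    rw [map_prod]
    refine Finset.prod_congr rfl fun σ _ => ?_
    unfold lin
    rw [map_sum]
    refine Finset.sum_congr rfl fun j _ => ?_
    rw [map_mul, ← IsScalarTower.algebraMap_apply k F Ω, IsScalarTower.algebraMap_apply k (Pool.Agent.SL.Om k U) Ω]
  refine hno F Ω s0 (fun σ j => algebraMap (Pool.Agent.SL.Om k U) Ω (X σ j)) ?_ ?_ hgen' ?_
  · intro σ f hf
    have h1 : aeval (fun j => algebraMap (Pool.Agent.SL.Om k U) Ω (X σ j)) f = algebraMap (Pool.Agent.SL.Om k U) Ω (aeval (X σ) f) :=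
      aeval_algebraMap_apply Ω (X σ) f
    rw [h1, hX σ f hf, map_zero]
  · intro i
    rw [hu']
    intro h
    exact (huU i).1 ((map_eq_zero _).1 h)
  · rw [hu']
    exact hrank

end Pool.Agent.GQ
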