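import Pool.Agent.Helper64.GQ.Classes
import Pool.Agent.Helper64.GQ.Germs
import Pool.Agent.Helper64.GQ.Alt
import Pool.Agent.Helper36.GQ.Minors

/-!
# GQ: the theorem
-/

set_option autoImplicit false

namespace Pool.Agent.GQ

open NumberField IntermediateField Pool.Agent.Helper64.Vojta Pool.Agent.VZ MvPolynomial Pool.Agent.GS

universe u

/-- any `n + 1` of the forms are linearly independent -/
def GenPos {k : Type*} [Field k] {n q : ℕ} (ℓ : Fin q → Fin (n + 1) → k) : Prop :=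
  ∀ f : Fin (n + 1) → Fin q, Function.Injective f → (Matrix.of fun i => ℓ (f i)).det ≠ 0

/-- a projective involution exchanges the hyperplanes in pairs -/
def Exch {k : Type*} [Field k] {n q : ℕ} (ℓ : Fin q → Fin (n + 1) → k) : Prop :=
  ∃ (M : Matrix (Fin (n + 1)) (Fin (n + 1)) k) (t : k) (π : Fin q → Fin q), t ≠ 0 ∧ M * M = t • 1 ∧
    ∀ i, π i ≠ i ∧ π (π i) = i ∧ ∃ c : k, M.mulVec (ℓ i) = c • ℓ (π i)

/-- the squares of the forms are linearly dependent -/
def SqDep {k : Type*} [Field k] {n q : ℕ} (ℓ : Fin q → Fin (n + 1) → k) : Prop :=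
  ∃ a : Fin q → k, a ≠ 0 ∧ ∀ s t, ∑ i, a i * (ℓ i s * ℓ i t) = 0

theorem gp_of_genPos {k F : Type u} [Field k] [Field F] [Algebra k F] {n q : ℕ} (ℓ : Fin q → Fin (n + 1) → k)
    (h : GenPos ℓ) : GP F ∅ (fun i j => algebraMap k F (ℓ i j)) n := by
  classical
  intro K _ _ y _ hy s hs
  by_contra hcon
  push Not at hcon
  obtain ⟨s', hs', hc⟩ := Finset.exists_subset_card_eq (Nat.succ_le_of_lt hcon)
  let f : Fin (n + 1) → Fin q := fun i => (s'.equivFinOfCardEq hc).symm i
  have hf : Function.Injective f := fun a b hab =>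
    (s'.equivFinOfCardEq hc).symm.injective (Subtype.ext hab)
  have h1 := h f hf
  let M : Matrix (Fin (n + 1)) (Fin (n + 1)) K := Matrix.of fun i j => algebraMap F K (algebraMap k F (ℓ (f i) j))
  have h2 : M.det ≠ 0 := by
    have h3 : M = ((algebraMap F K).comp (algebraMap k F)).mapMatrix (Matrix.of fun i => ℓ (f i)) := rfl
    rw [h3, ← RingHom.map_det]
    exact (map_ne_zero _).mpr h1
  apply hy
  apply Matrix.eq_zero_of_mulVec_eq_zero h2
  funext i
  have h3 := hs (f i) (hs' ((s'.equivFinOfCardEq hc).symm i).2)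
  exact h3

/-- the number of hyperplanes -/
theorem count {F Ω : Type u} [Field F] [IsAlgClosed F] [Field Ω] [Algebra F Ω] {N n q r : ℕ}
    (I : Set (MvPolynomial (Fin (N + 1)) F)) (hI : Homog I) (ℓ : Fin q → Fin (N + 1) → F) (hGP : GP F I ℓ n)
    (hq : r * n + 1 ≤ q) (s0 : Fin r) (y : Fin r → Fin (N + 1) → Ω) (hX : ∀ σ, OnX I (y σ))
    (hu : ∀ i, uu ℓ y i ≠ 0) (hgen : (n : ℕ∞) ≤ rk F (Rat (y s0))) (hrank : Rk F (uu ℓ y) n) :
    (n + 1) * (q - r * n) ≤ q := by
  classical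
  have hne : ∀ σ, y σ ≠ 0 := by
    intro σ h0
    have hq0 : 0 < q := by omega
    apply hu ⟨0, hq0⟩
    apply uu_eq_zero ℓ y _ σ
    rw [h0]
    simp [lin]
  have hst0 : St I ℓ n s0 ∅ y := ⟨hne, hX, by simp, by simpa using hgen, by simpa using hrank⟩
  obtain ⟨𝒞, hcard, h𝒞⟩ := classes I hI ℓ hGP (by omega) s0 ∅ y hst0 (by simp)
  rw [Finset.card_empty, Nat.sub_zero] at hcard
  have hdis : ∀ C ∈ 𝒞, ∀ C' ∈ 𝒞, ∀ g ∈ C, g ∈ C' → C = C' := by
    intro C hC C' hC' g hg hg'
    ext h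
    rw [(h𝒞 C hC).2.2 g hg h (hu h), (h𝒞 C' hC').2.2 g hg' h (hu h)]
  have hsum : ∑ C ∈ 𝒞, C.card ≤ q := by
    rw [← Finset.card_biUnion]
    · exact (Finset.card_le_univ _).trans (by rw [Fintype.card_fin])
    · intro C hC C' hC' hne
      rw [Function.onFun, Finset.disjoint_left]
      intro g hg hg'
      exact hne (hdis C hC C' hC' g hg hg')
  refine le_trans ?_ hsum
  rw [← hcard, ← smul_eq_mul, ← Finset.sum_const]
  exact Finset.sum_le_sum fun C hC => by
    have := (h𝒞 C hC).1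
    omega

theorem dd_map {k F : Type*} [CommRing k] [CommRing F] (φ : k →+* F) {m : ℕ} (E E' : Matrix (Fin m) (Fin m) k)
    (S : Finset (Fin m)) : dd (E.map φ) (E'.map φ) S = φ (dd E E' S) := by
  unfold dd
  rw [RingHom.map_det]
  congr 1
  ext i j
  simp only [mix, Matrix.of_apply, RingHom.mapMatrix_apply, Matrix.map_apply]
  split_ifs <;> rfl

theorem dd_ne_zero {k : Type*} [Field k] {m : ℕ} (E E' : Matrix (Fin m) (Fin m) k) (h : GP2 E E')
    (S : Finset (Fin m)) : dd E E' S ≠ 0 := by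
  have h1 := h (fun i => if i ∈ S then Sum.inr i else Sum.inl i) (by
    intro a b hab
    dsimp only at hab
    split_ifs at hab with h1 h2 h2
    · exact Sum.inr_injective hab
    · exact Sum.inl_injective hab)
  have h3 : mix E E' S = Matrix.of fun i => Sum.elim E E' (if i ∈ S then Sum.inr i else Sum.inl i) := by
    ext i j
    simp only [mix, Matrix.of_apply]
    split_ifs <;> rfl
  rw [dd, h3]
  exact h1

/-- the contradiction -/
theorem contra {k F Ω : Type u} [Field k] [Field F] [IsAlgClosed F] [Field Ω] [Algebra k F] [Algebra F Ω] {n q : ℕ}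
    (hn : 1 ≤ n) (hq : 2 * n + 2 ≤ q) (ℓ : Fin q → Fin (n + 1) → k) (hℓ : GenPos ℓ)
    (hex : q = 2 * n + 2 → ¬ Exch ℓ) (hsq : q = 2 * n + 2 → ¬ SqDep ℓ) (s0 : Fin 2)
    (y : Fin 2 → Fin (n + 1) → Ω) (hu : ∀ i, uu (fun i j => algebraMap k F (ℓ i j)) y i ≠ 0)
    (hgen : (n : ℕ∞) ≤ rk F (Rat (y s0))) : ¬ Rk F (uu (fun i j => algebraMap k F (ℓ i j)) y) n := by
  classical
  intro hrank
  obtain ⟨e, he⟩ := pairs hn ∅ (fun f hf => absurd hf (by simp)) _ (gp_of_genPos (F := F) ℓ hℓ) hq s0 y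
    (fun σ f hf => absurd hf (by simp)) hu hgen hrank
  have hq2 : q = 2 * n + 2 := by
    have := Fintype.card_congr e
    simp at this
    omega
  let E : Matrix (Fin (n + 1)) (Fin (n + 1)) k := Matrix.of fun i => ℓ (e (Sum.inl i))
  let E' : Matrix (Fin (n + 1)) (Fin (n + 1)) k := Matrix.of fun i => ℓ (e (Sum.inr i))
  have hG : GP2 E E' := by
    intro f hf
    have h1 := hℓ (fun i => e (f i)) (e.injective.comp hf)
    convert h1 using 2
    ext i j
    simp only [Matrix.of_apply]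
    rcases f i with a | a <;> rfl
  have hGF : GP2 (E.map (algebraMap k F)) (E'.map (algebraMap k F)) := by
    intro f hf
    have h1 := hG f hf
    have h2 : (Matrix.of fun i => Sum.elim (E.map (algebraMap k F)) (E'.map (algebraMap k F)) (f i)) =
        (algebraMap k F).mapMatrix (Matrix.of fun i => Sum.elim E E' (f i)) := by
      ext i j
      simp only [Matrix.of_apply, RingHom.mapMatrix_apply, Matrix.map_apply]
      rcases f i with a | a <;> rfl
    rw [h2, ← RingHom.map_det]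
    exact (map_ne_zero _).mpr h1
  choose κ hκ using he
  -- the other point
  let s1 : Fin 2 := 1 - s0
  have hprod : ∀ g, uu (fun i j => algebraMap k F (ℓ i j)) y g =
      lin (fun j => algebraMap k F (ℓ g j)) (y s0) * lin (fun j => algebraMap k F (ℓ g j)) (y s1) := by
    intro g
    rw [uu_eq, Fin.prod_univ_two]
    have h2 : (s0 = 0 ∧ s1 = 1) ∨ (s0 = 1 ∧ s1 = 0) := by
      have : ∀ s : Fin 2, (s = 0 ∧ 1 - s = 1) ∨ (s = 1 ∧ 1 - s = 0) := by decide
      exact this s0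
    rcases h2 with ⟨h2, h3⟩ | ⟨h2, h3⟩
    · rw [h2, h3]
    · rw [h2, h3, mul_comm]
  have hz : y s1 ≠ 0 := by
    intro h0
    have hq0 : 0 < q := by omega
    apply hu ⟨0, hq0⟩
    apply uu_eq_zero _ y _ s1
    rw [h0]
    simp [lin]
  have hy : y s0 ≠ 0 := by
    intro h0
    have hq0 : 0 < q := by omega
    apply hu ⟨0, hq0⟩
    apply uu_eq_zero _ y _ s0
    rw [h0]
    simp [lin]
  have hκ0 : ∀ i, κ i ≠ 0 := by
    intro i h0
    have h1 := hκ i
    rw [h0, map_zero, div_eq_zero_iff] at h1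
    exact h1.elim (hu _) (hu _)
  have hrel := minors (E.map (algebraMap k F)) (E'.map (algebraMap k F)) hGF κ hκ0 (y s0) (y s1) hy hz hgen (by
    intro i
    have h1 := hκ i
    rw [div_eq_iff (hu _), hprod, hprod] at h1
    exact h1)
  simp only [dd_map] at hrel
  -- `κ` is defined over `k`
  have hκk : ∀ j, ∃ c : k, c ≠ 0 ∧ κ j = algebraMap k F c := by
    intro j
    have h1 := hrel j ∅ (by simp)
    refine ⟨dd E E' ∅ * dd E E' ((∅ : Finset (Fin (n + 1)))ᶜ.erase j) /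
      (dd E E' (insert j ∅) * dd E E' (∅ : Finset (Fin (n + 1)))ᶜ), ?_, ?_⟩
    · exact div_ne_zero (mul_ne_zero (dd_ne_zero _ _ hG _) (dd_ne_zero _ _ hG _))
        (mul_ne_zero (dd_ne_zero _ _ hG _) (dd_ne_zero _ _ hG _))
    · rw [map_div₀, map_mul, map_mul, eq_div_iff]
      · exact h1.symm
      · exact mul_ne_zero ((map_ne_zero _).mpr (dd_ne_zero _ _ hG _)) ((map_ne_zero _).mpr (dd_ne_zero _ _ hG _))
  choose c hc0 hc using hκk
  have hrel' : ∀ j S, j ∉ S → dd E E' S * dd E E' (Sᶜ.erase j) = c j * (dd E E' (insert j S) * dd E E' Sᶜ) := by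
    intro j S hj
    apply (algebraMap k F).injective
    rw [map_mul, map_mul, map_mul, ← hc]
    exact hrel j S hj
  rcases alternatives E E' hG c hc0 hrel' with ⟨M, t, ht, hM, h1, h2⟩ | ⟨a, b, ha, hb, hab⟩
  · apply hex hq2
    refine ⟨M, t, fun g => e (e.symm g).swap, ht, hM, fun g => ?_⟩
    obtain ⟨x, rfl⟩ := e.surjective g
    dsimp only
    rw [Equiv.symm_apply_apply]
    refine ⟨fun h => ?_, ?_, ?_⟩
    · have h3 := e.injective h
      rcases x with x | x <;> simp at h3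
    · rw [Equiv.symm_apply_apply, Sum.swap_swap]
    · rcases x with x | x
      · exact h1 x
      · exact h2 x
  · apply hsq hq2
    refine ⟨fun g => Sum.elim a (fun i => - b i) (e.symm g), ?_, fun s t => ?_⟩
    · intro h
      have h3 := congrFun h (e (Sum.inl 0))
      rw [Equiv.symm_apply_apply] at h3
      exact ha 0 h3
    · rw [← Equiv.sum_comp e, Fintype.sum_sum_type]
      simp only [Equiv.symm_apply_apply, Sum.elim_inl, Sum.elim_inr, neg_mul, Finset.sum_neg_distrib]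
      rw [← sub_eq_add_neg, sub_eq_zero]
      exact hab s t

theorem main {k : Type u} [Field k] [NumberField k] {n q : ℕ} (hn : 1 ≤ n) (hq : 2 * n + 2 ≤ q)
    (ℓ : Fin q → Fin (n + 1) → k) (hℓ : GenPos ℓ) (hex : q = 2 * n + 2 → ¬ Exch ℓ)
    (hsq : q = 2 * n + 2 → ¬ SqDep ℓ) (S : Finset (Pl k)) (C : ℝ) :
    ∃ Q : MvPolynomial (Fin n) k, Q ≠ 0 ∧ ∀ y : Fin n → AlgebraicClosure k, dg y ≤ 2 →
      (∀ i, ∑ j, algebraMap k (fld y) (ℓ i j) * crd y j ≠ 0) → q * hgt y - C ≤ lam ℓ S y →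
      aeval y Q = 0 := by
  classical
  have hP : Algebra.trdeg k (MvPolynomial (Fin n) k ⧸ (⊥ : Ideal (MvPolynomial (Fin n) k))) = n := by
    rw [(AlgEquiv.quotientBot k (MvPolynomial (Fin n) k)).trdeg_eq, MvPolynomial.trdeg_of_isDomain]
    simp
  have hdeg : ∀ d : ℕ, ∃ Q : MvPolynomial (Fin n) k, Q ≠ 0 ∧ (d ≤ 2 → ∀ y : Fin n → AlgebraicClosure k,
      dg y = d → (∀ i, ∑ j, algebraMap k (fld y) (ℓ i j) * crd y j ≠ 0) → q * hgt y - C ≤ lam ℓ S y →
      aeval y Q = 0) := by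
    intro d
    by_cases hd : d ≤ 2
    · obtain ⟨Q, h1, h2⟩ := main_deg_of d (by omega) ⊥ hP ℓ (by
        intro F Ω _ _ _ _ _ _ _ s0 y _ hu hgen
        interval_cases d
        · exact s0.elim0
        · intro hrank
          have h1 := count (r := 1) ∅ (fun f hf => absurd hf (by simp)) _ (gp_of_genPos (F := F) ℓ hℓ) (by omega) s0 y
            (fun σ f hf => absurd hf (by simp)) hu hgen hrank
          obtain ⟨t, ht⟩ : ∃ t, q = 2 * n + 2 + t := ⟨q - (2 * n + 2), by omega⟩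
          have h2 : q - 1 * n = n + 2 + t := by omega
          rw [h2, ht] at h1
          nlinarith
        · exact contra hn hq ℓ hℓ hex hsq s0 y hu hgen) S C
      refine ⟨Q, fun h => h1 (by rw [h]; exact Ideal.zero_mem _), fun _ y hy hD hN => h2 y ?_ hy hD hN⟩
      intro f hf
      rw [(Ideal.mem_bot).mp hf, map_zero]
    · exact ⟨1, one_ne_zero, fun h => absurd h hd⟩
  choose Q hQ0 hQ using hdeg
  refine ⟨∏ d ∈ Finset.range 3, Q d, Finset.prod_ne_zero_iff.mpr fun d _ => hQ0 d, ?_⟩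
  intro y hy h1 h2
  rw [map_prod]
  exact Finset.prod_eq_zero (Finset.mem_range.mpr (by omega : dg y < 3)) (hQ _ hy y rfl h1 h2)

end Pool.Agent.GQ
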