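import Pool.Agent.Helper64.GQ.Defs
import Pool.Agent.Helper77.GS.Chain

/-!
# GQ: the statements of the blocks (skeleton; not to be imported by finished files)

Points of degree two, `q = 2 n + 2` hyperplanes in general position in `P^n`.
-/

set_option autoImplicit false

namespace Pool.Agent.GQ.Stmt

open Pool.Agent.GS Pool.Agent.GQ MvPolynomial

universe u

/-! ## Block Q1 (helper64): classes of proportional units.

Induction on `d = n - A.card`. `d = 0`: the rank is `0`, the survivors (`uu ≠ 0`, at least `q - r n`) are one class. `d ≥ 1`: a step at `j`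
(`uu j ≠ 0`) kills the class of `j`; the classes of the new state are classes of the old one (the rank drops by exactly one at
every step, since it is `≥ d` by the steps which follow; so a product of units with constant residue is constant).
So there are `≥ d` classes with `≥ q - r n` elements among the survivors; a second step, at an element of such a class, misses that
class; so there are `≥ d + 1`. -/

theorem classes {F κ : Type u} [Field F] [IsAlgClosed F] [Field κ] [Algebra F κ] {N n q r : ℕ}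
    (I : Set (MvPolynomial (Fin (N + 1)) F)) (hI : Homog I) (ℓ : Fin q → Fin (N + 1) → F) (hGP : GP F I ℓ n)
    (hq : r * n + 1 ≤ q) (s0 : Fin r) (A : Finset (Fin q)) (y : Fin r → Fin (N + 1) → κ)
    (h : St I ℓ n s0 A y) (hA : A.card ≤ n) :
    ∃ 𝒞 : Finset (Finset (Fin q)), 𝒞.card = n - A.card + 1 ∧ ∀ C ∈ 𝒞, q ≤ C.card + r * n ∧
      (∀ g ∈ C, uu ℓ y g ≠ 0) ∧
      ∀ g ∈ C, ∀ h, uu ℓ y h ≠ 0 → (h ∈ C ↔ Cst F (uu ℓ y h / uu ℓ y g)) := by
  sorry

/-- `2 n + 2` hyperplanes (and not more), in pairs -/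
theorem pairs {F Ω : Type u} [Field F] [IsAlgClosed F] [Field Ω] [Algebra F Ω] {N n q : ℕ} (hn : 1 ≤ n)
    (I : Set (MvPolynomial (Fin (N + 1)) F)) (hI : Homog I) (ℓ : Fin q → Fin (N + 1) → F) (hGP : GP F I ℓ n)
    (hq : 2 * n + 2 ≤ q) (s0 : Fin 2) (y : Fin 2 → Fin (N + 1) → Ω) (hX : ∀ σ, OnX I (y σ))
    (hu : ∀ i, uu ℓ y i ≠ 0) (hgen : (n : ℕ∞) ≤ rk F (Rat (y s0))) (hrank : Rk F (uu ℓ y) n) :
    ∃ e : Fin (n + 1) ⊕ Fin (n + 1) ≃ Fin q, ∀ i,
      Cst F (uu ℓ y (e (Sum.inl i)) / uu ℓ y (e (Sum.inr i))) := by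
  sorry

/-! ## Block Q2: the determinant.

`M(Y) i j = E_i(Y) E i j - κ i E'_i(Y) E' i j` kills `z ≠ 0` at the generic point `Y = y`, so `det M(Y) = 0` for all `Y` (a homogeneous
polynomial over `F` which vanishes at `y`, `n ≤ rk F (Rat y)`, is zero). Evaluate it at the point `Y` on the `n` hyperplanes
`b_l`, `l ≠ j`, with `b_l = E' l` for `l ∈ S`, `b_l = E l` for `l ∉ S` (`Y = cross product`, `lin (g) Y = det` of the rows `b_l` and `g`):
the row `l ≠ j` of `M(Y)` is a nonzero multiple of the other form of the pair `l`, the row `j` is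
`E_j(Y) E j - κ j E'_j(Y) E' j` with `E_j(Y) = dd E E' S`, `E'_j(Y) = dd E E' (insert j S)` (same sign). -/

theorem minors {F Ω : Type u} [Field F] [Infinite F] [Field Ω] [Algebra F Ω] {n : ℕ}
    (E E' : Matrix (Fin (n + 1)) (Fin (n + 1)) F) (hE : GP2 E E') (κ : Fin (n + 1) → F)
    (y z : Fin (n + 1) → Ω) (hz : z ≠ 0) (hgen : (n : ℕ∞) ≤ rk F (Rat y))
    (h : ∀ i, lin (E i) y * lin (E i) z = algebraMap F Ω (κ i) * (lin (E' i) y * lin (E' i) z)) :
    ∀ j S, j ∉ S → dd E E' S * dd E E' (Sᶜ.erase j) = κ j * (dd E E' (insert j S) * dd E E' Sᶜ) := by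
  sorry

/-! ## Block Q3: `B = E' E⁻¹`, `A = K B` and `A' = B⁻¹` have the same principal minors

`dd E E' S = dd 1 B S * det E`; by induction `dd 1 B Sᶜ = (∏ i ∈ S, κ i) * dd 1 B S * det B`; and `mix 1 B⁻¹ S * B = mix B 1 S = mix 1 B Sᶜ`. -/

theorem principal {k : Type*} [Field k] {m : ℕ} (E E' : Matrix (Fin m) (Fin m) k) (hE : GP2 E E')
    (κ : Fin m → k)
    (h : ∀ j S, j ∉ S → dd E E' S * dd E E' (Sᶜ.erase j) = κ j * (dd E E' (insert j S) * dd E E' Sᶜ)) :
    ∀ S, dd 1 (E' * E⁻¹)⁻¹ S = dd 1 (Matrix.diagonal κ * (E' * E⁻¹)) S := by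
  sorry

/-! ## Block Q4: matrices with the same principal minors (Loewy)

Sizes 1, 2: `A' i i = A i i`, `A' i j A' j i = A i j A j i`. Size 3: for each triple the two cyclic products of `A'` are those of `A`, in the
same order (type I) or exchanged (type II). Size 4: if `(1 2 3)`, `(1 2 4)` are of type I and `(1 3 4)` is of type II and not I,
normalise `A' 1 j = A 1 j`, `A' j 1 = A j 1`; then `A' = A` on `23, 32, 24, 42`, `A' 3 4 = λ A 4 3`, `A' 4 3 = λ⁻¹ A 3 4`,
`λ = A14 A31 / (A13 A41)`; `(2 3 4)` is of type II, so `λ = A24 A32 / (A23 A42)`; the minor of size 4 and `A23 A14 ≠ A24 A13` give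
`A12 A24 A41 = A14 A42 A21` and then `A12 A23 A31 = A13 A32 A21`: all are of type II. So two triples with two common elements have a common type
[each of I, II is a property of a triple]; globally: fix the element 1; triples `1 j k` which are not symmetric (two cyclic products different) have a unique type;
if `1 j k` is I and `1 l m` is II, both not symmetric, then (if they do not share another element and `1 j l`, `1 j m`, `1 k l`, `1 k m` are symmetric)
`j k l` and `j l m` are not symmetric (cocycle), `j k l` is I, `j l m` is II, contradiction. If all `1 j k` are of type I, `d j = A' 1 j / A 1 j` works. -/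

theorem loewy {k : Type*} [Field k] {m : ℕ} (A A' : Matrix (Fin m) (Fin m) k)
    (h : ∀ S, dd 1 A' S = dd 1 A S) (h1 : ∀ i j, i ≠ j → A i j ≠ 0)
    (h2 : ∀ i j a b, i ≠ j → a ≠ b → i ≠ a → i ≠ b → j ≠ a → j ≠ b → A i a * A j b ≠ A i b * A j a) :
    ∃ d : Fin m → k, (∀ i, d i ≠ 0) ∧
      ((∀ i j, d i * A' i j = A i j * d j) ∨ ∀ i j, d i * A' i j = A j i * d j) := by
  sorry

/-! ## Block Q5: the two cases

`B = E' E⁻¹`. Case I: `B⁻¹ = D⁻¹ K B D`, so `N = Δ B`, `Δ = D⁻¹ K`, satisfies `N N = Δ D⁻¹` (diagonal), and row vectors: `e_i N = Δ_i B_i`, `B_i N = d_i⁻¹ e_i`; `B_i`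
is an eigenvector of `N N`, its entries are not zero, so `N N = t`. In the coordinates of `E`: `M = (E⁻¹ N E)ᵀ`. Case II: `B⁻¹ = D⁻¹ Bᵀ K D`, so
`∑ i, κ i d i B i j B i l = d j δ j l`. -/

theorem alternatives {k : Type*} [Field k] {n : ℕ} (E E' : Matrix (Fin (n + 1)) (Fin (n + 1)) k) (hE : GP2 E E')
    (κ : Fin (n + 1) → k) (hκ : ∀ i, κ i ≠ 0)
    (h : ∀ j S, j ∉ S → dd E E' S * dd E E' (Sᶜ.erase j) = κ j * (dd E E' (insert j S) * dd E E' Sᶜ)) :
    (∃ (M : Matrix (Fin (n + 1)) (Fin (n + 1)) k) (t : k), t ≠ 0 ∧ M * M = t • (1 : Matrix _ _ k) ∧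
      (∀ i, ∃ c : k, M.mulVec (E i) = c • E' i) ∧ ∀ i, ∃ c : k, M.mulVec (E' i) = c • E i) ∨
    ∃ a b : Fin (n + 1) → k, (∀ i, a i ≠ 0) ∧ (∀ i, b i ≠ 0) ∧
      ∀ s t, ∑ i, a i * (E i s * E i t) = ∑ i, b i * (E' i s * E' i t) := by
  sorry

end Pool.Agent.GQ.Stmt
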